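import Pool.Agent.L0h89.UpperTest

set_option autoImplicit false

open Set Filter Topology Metric MeasureTheory

namespace Pool.Agent.L0h89.Known.NullExceptionalSet

open Pool.Agent.Results.MP_725b87_an.NotPluripolar

/-- Positive answer to Q1, on every domain of complex n-space (bounded or not, pseudoconvex or
not): for every plurisubharmonic function on the domain that is not identically -∞, the set of
points at which it has no differential test from above has Lebesgue measure zero.

Proof (files of the helper folder).  Slide paraboloids of a fixed large opening M down onto the
graph over a closed ball B(z0,r), with vertex y in B(z0,r/8): every vertex y produces a contact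
point x near z0, at which the function has a differential test from above.  Comparing two touching
paraboloids on a circle of radius 4|x1-x2| in the complex direction y2-y1, the sub-mean value
inequality gives |y1-y2| ≤ 16|x1-x2|.  So the vertices are a 16-Lipschitz image of the compact set
of contact points, which therefore fills at least the fraction 128^(-2n) of B(z0,r), with a
constant that does not depend on r or on the function.  Hence the exceptional set has no outer
density point in the domain, and it is a null set. -/
theorem result : ∀ (n : ℕ) (Ω : Set (Cn n)), IsOpen Ω → IsConnected Ω →
    ∀ φ : Cn n → EReal, IsPSH Ω φ → (∃ z ∈ Ω, φ z ≠ ⊥) →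
      volume (exceptional Ω φ) = 0 :=
  fun _ Ω hΩ hconn φ hφ hne =>
    Pool.Agent.L0h89.UpperTest.exceptional_null Ω hΩ hconn.isPreconnected φ hφ hne

end Pool.Agent.L0h89.Known.NullExceptionalSet
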